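import Pool.Agent.Helper1.KL.Stmts
import Pool.Agent.HC.RatExt

set_option autoImplicit false
set_option linter.unusedSectionVars false

/-!
Project KL (MP_0b9e0b_ag), module KL-9: the automorphism `e ↦ e + 1` of the field of a reduced
point. General part: fields of rational functions and translations.
-/

namespace Pool.Agent.Helper17.KL

open Pool.Agent.Helper16 Pool.Agent.Helper1.KL

section General

variable {L N : Type} [Field L] [Field N] [Algebra L N]

/-- The embedding of the field of rational functions which sends `X` to a transcendental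
element. -/
noncomputable def emb (e : N) (he : Transcendental L e) : RatFunc L →ₐ[L] N :=
  (IntermediateField.val _).comp
    (RatFunc.algEquivOfTranscendental e he : RatFunc L →ₐ[L] IntermediateField.adjoin L {e})

theorem emb_algebraMap (e : N) (he : Transcendental L e) (q : Polynomial L) :
    emb e he (algebraMap (Polynomial L) (RatFunc L) q) = Polynomial.aeval e q := by
  unfold emb
  rw [AlgHom.comp_apply, AlgEquiv.coe_toAlgHom, RatFunc.algEquivOfTranscendental_algebraMap,
    ← Polynomial.aeval_algHom_apply]
  rfl

theorem emb_X (e : N) (he : Transcendental L e) : emb e he RatFunc.X = e := by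
  rw [← RatFunc.algebraMap_X, emb_algebraMap, Polynomial.aeval_X]

theorem transcendental_add {e : N} (he : Transcendental L e) (c : L) :
    Transcendental L (e + algebraMap L N c) := by
  intro h
  refine he ?_
  have h1 := h.sub (isAlgebraic_algebraMap (R := L) (A := N) c)
  rwa [add_sub_cancel_right] at h1

/-- Two systems of elements which are the images of one system under two homomorphisms which
agree on `F` satisfy the same equations over `F`. -/
theorem ker_eq {F R σ : Type} [Field F] [Field R] [Algebra F N] (ψ₁ ψ₂ : R →+* N) (τ : F →+* R)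
    (h1 : ψ₁.comp τ = algebraMap F N) (h2 : ψ₂.comp τ = algebraMap F N) (w : σ → R) (u v : σ → N)
    (hu : ∀ j, ψ₁ (w j) = u j) (hv : ∀ j, ψ₂ (w j) = v j) :
    RingHom.ker (MvPolynomial.aeval (R := F) u) = RingHom.ker (MvPolynomial.aeval (R := F) v) := by
  have h3 : ∀ (ψ : R →+* N) (x : σ → N), ψ.comp τ = algebraMap F N → (∀ j, ψ (w j) = x j) →
      ∀ P : MvPolynomial σ F, MvPolynomial.aeval (R := F) x P = ψ (MvPolynomial.eval₂ τ w P) := by
    intro ψ x hψ hx P
    rw [MvPolynomial.hom_eval₂, hψ, MvPolynomial.aeval_def]
    congr 1
    funext j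
    exact (hx j).symm
  ext P
  rw [RingHom.mem_ker, RingHom.mem_ker, h3 ψ₁ u h1 hu, h3 ψ₂ v h2 hv, map_eq_zero, map_eq_zero]

/-- Two homomorphisms of `k(t)` which agree on `k` and at `t` are equal. -/
theorem ratFunc_hom_ext {k : Type} [Field k] {f g : RatFunc k →+* N}
    (h : ∀ a : k, f (RatFunc.C a) = g (RatFunc.C a)) (hX : f RatFunc.X = g RatFunc.X) : f = g := by
  refine IsLocalization.ringHom_ext (nonZeroDivisors (Polynomial k)) ?_
  refine Polynomial.ringHom_ext ?_ ?_
  · intro a
    simpa using h a
  · simpa using hX

/-- Elements of `k(t)` are in every field which contains `k` and `t`. -/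
theorem ratFunc_mem {k : Type} [Field k] (g : RatFunc k →+* N) (S : Subfield N)
    (h : ∀ a : k, g (RatFunc.C a) ∈ S) (hX : g RatFunc.X ∈ S) (a : RatFunc k) : g a ∈ S := by
  have h1 : ∀ q : Polynomial k, g (algebraMap (Polynomial k) (RatFunc k) q) ∈ S := by
    intro q
    induction q using Polynomial.induction_on' with
    | add p q hp hq => rw [map_add, map_add]; exact add_mem hp hq
    | monomial n a =>
      rw [← Polynomial.C_mul_X_pow_eq_monomial, map_mul, map_pow, RatFunc.algebraMap_X,
        RatFunc.algebraMap_C, map_mul, map_pow]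
      exact mul_mem (h a) (pow_mem hX n)
  rw [← RatFunc.num_div_denom a, map_div₀]
  exact div_mem (h1 _) (h1 _)

/-- A homomorphism of `k(t)` lifts through a homomorphism of fields if it does on `k` and `t`. -/
theorem exists_lift {k R : Type} [Field k] [Field R] (ψ : R →+* N) (g : RatFunc k →+* N)
    (h : ∀ a : k, ∃ b, ψ b = g (RatFunc.C a)) (hX : ∃ b, ψ b = g RatFunc.X) :
    ∃ τ : RatFunc k →+* R, ψ.comp τ = g := by
  have h1 : ∀ a, g a ∈ ψ.fieldRange := fun a => ratFunc_mem g ψ.fieldRange h hX a
  choose f hf using h1
  refine ⟨{ toFun := f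
            map_one' := ψ.injective (by rw [hf, map_one, map_one])
            map_mul' := fun a b => ψ.injective (by rw [hf, map_mul, map_mul, hf, hf])
            map_zero' := ψ.injective (by rw [hf, map_zero, map_zero])
            map_add' := fun a b => ψ.injective (by rw [hf, map_add, map_add, hf, hf]) }, ?_⟩
  ext a
  exact hf a

/-- Comparison of transcendence degrees of subfields. -/
theorem trdeg_le_of_mem {k A B : Type} [Field k] [Field A] [Field B] [Algebra k A] [Algebra k B]
    [Algebra k N] [Algebra A N] [Algebra B N] [IsScalarTower k A N] [IsScalarTower k B N]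
    (h : ∀ a : A, ∃ b : B, algebraMap B N b = algebraMap A N a) :
    Algebra.trdeg k A ≤ Algebra.trdeg k B := by
  choose f hf using h
  have hi : Function.Injective (algebraMap B N) := (algebraMap B N).injective
  let φ : A →ₐ[k] B :=
    { toFun := f
      map_one' := hi (by rw [hf, map_one, map_one])
      map_mul' := fun a b => hi (by rw [hf, map_mul, map_mul, hf, hf])
      map_zero' := hi (by rw [hf, map_zero, map_zero])
      map_add' := fun a b => hi (by rw [hf, map_add, map_add, hf, hf])
      commutes' := fun a => hi (by
        rw [hf, ← IsScalarTower.algebraMap_apply, ← IsScalarTower.algebraMap_apply]) }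
  exact Pool.Agent.HC.trdeg_le_of_inj φ φ.toRingHom.injective

/-- If all elements of `A` are algebraic over `L`, the transcendence degree of `A` is at most that
of `L`. -/
theorem trdeg_le_of_alg {k A : Type} [Field k] [Field A] [Algebra k A] [Algebra k L]
    [Algebra k N] [Algebra A N] [IsScalarTower k A N] [IsScalarTower k L N]
    (h : ∀ a : A, IsAlgebraic L (algebraMap A N a)) :
    Algebra.trdeg k A ≤ Algebra.trdeg k L := by
  have : IsScalarTower k (algebraicClosure L N) N := by
    refine IsScalarTower.of_algebraMap_eq fun a => ?_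
    rw [IsScalarTower.algebraMap_apply k L N, IsScalarTower.algebraMap_apply k L
      (algebraicClosure L N)]
    rfl
  have h1 : Algebra.trdeg k A ≤ Algebra.trdeg k (algebraicClosure L N) := by
    refine trdeg_le_of_mem (N := N) fun a => ⟨⟨algebraMap A N a, ?_⟩, rfl⟩
    exact mem_algebraicClosure_iff.2 (h a)
  have h2 : Algebra.trdeg k (algebraicClosure L N) = Algebra.trdeg k L :=
    Pool.Agent.HC.trdeg_of_isAlgebraic k L
  rwa [h2] at h1

end General

end Pool.Agent.Helper17.KL
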