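import Pool.Agent.Helper17.KL.A12

set_option autoImplicit false
set_option linter.unusedSectionVars false

/-!
Project KL (MP_0b9e0b_ag), module KL-9: the proofs of `ModA1` and `ModA2`.
-/

namespace Pool.Agent.Helper17.KL

open Pool.Agent.Helper16 Pool.Agent.Helper1.KL

section Vertical

variable {k : Type} [Field k] {p : ℕ} [Fact p.Prime] [CharP k p] {n : ℕ} {b : Fin n → k}
  {N : Type} [Field N] {r : ℕ} {z : Fin n ⊕ Fin n → Option N}

theorem xc_mem_fld [Algebra k N] (i : Fin n) : xc z i ∈ fld k (xpt z) := by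
  cases h : z (Sum.inl i) with
  | none =>
    have h1 : xc z i = 0 := by unfold xc; rw [h]; rfl
    rw [h1]
    exact zero_mem _
  | some a =>
    have h1 : xc z i = a := by unfold xc; rw [h]; rfl
    rw [h1]
    exact IntermediateField.subset_adjoin _ _ ⟨i, h⟩

/-- The element `t` is transcendental over the field of the coordinates `x i` of a vertical
point. -/
theorem vert_transc [Algebra k N] [Algebra (RatFunc k) N] [IsScalarTower k (RatFunc k) N]
    (hb : ∀ i, b i ≠ 0) (hz : XV p b N z)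
    (hdim : Algebra.trdeg (RatFunc k) (fld (RatFunc k) z) = r) (hv : Vert k r z) :
    Transcendental (fld k (xpt z)) (algebraMap (RatFunc k) N RatFunc.X) := by
  intro hX
  have hF : ∀ a : RatFunc k, IsAlgebraic (fld k (xpt z)) (algebraMap (RatFunc k) N a) := by
    intro a
    have h1 := ratFunc_mem (algebraMap (RatFunc k) N)
      (algebraicClosure (fld k (xpt z)) N).toSubfield ?_ ?_ a
    · exact mem_algebraicClosure_iff.1 h1
    · intro c
      refine mem_algebraicClosure_iff.2 ?_
      have h2 : algebraMap (RatFunc k) N (RatFunc.C c) =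
          algebraMap (fld k (xpt z)) N (algebraMap k (fld k (xpt z)) c) := by
        rw [← IsScalarTower.algebraMap_apply k (fld k (xpt z)) N,
          IsScalarTower.algebraMap_apply k (RatFunc k) N]
        rfl
      rw [h2]
      exact isAlgebraic_algebraMap _
    · exact mem_algebraicClosure_iff.2 hX
  have hx : ∀ i, IsAlgebraic (fld k (xpt z)) (xc z i) := fun i =>
    isAlgebraic_algebraMap (⟨xc z i, xc_mem_fld i⟩ : fld k (xpt z))
  have : IsScalarTower k (fld (RatFunc k) z) N := IsScalarTower.of_algebraMap_eq fun a => rfl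
  have h1 : Algebra.trdeg k (fld (RatFunc k) z) ≤ Algebra.trdeg k (fld k (xpt z)) :=
    trdeg_le_of_alg (N := N) fun a => alg_of_mem hb hz hF hx a.1 a.2
  have h2 := Pool.Agent.HC.trdeg_base (k := k) (N := fld (RatFunc k) z)
  rw [h2, hdim] at h1
  have h3 := h1.trans hv
  exact absurd h3 (by exact_mod_cast Nat.not_succ_le_self r)

end Vertical

/-- KL-9a. -/
theorem modA1 (k : Type) [Field k] (p : ℕ) [Fact p.Prime] [CharP k p] {n : ℕ} (b : Fin n → k)
    (r : ℕ) (hb : ∀ i, b i ≠ 0) : ModA1 k p b r := by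
  intro N _ _ _ _ I z ρ hz hρ hv hX h
  have hp := charP_N k p N
  have ht := vert_transc hb hz.mem hz.dim hv
  have hcast : ∀ a : ZMod p, (a.cast : N) ∈ fld k (xpt z) := by
    intro a
    rw [← ZMod.natCast_val]
    exact natCast_mem _ _
  have hbase : ∀ c : k, algebraMap (RatFunc k) N (RatFunc.C c) = algebraMap k N c := by
    intro c
    rw [IsScalarTower.algebraMap_apply k (RatFunc k) N]
    rfl
  have hXL : Xc ρ z ∈ fld k (xpt z) := sum_mem fun i _ => mul_mem (hcast _) (xc_mem_fld i)
  have hBL : Bc b ρ z ∈ fld k (xpt z) := sum_mem fun i _ => mul_mem (mul_mem (hcast _)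
    (by rw [hbase]; exact IntermediateField.algebraMap_mem _ _)) (inv_mem (xc_mem_fld i))
  have he0 := ec_eq hb hz hρ
  have htr := ec_tr hz hρ h
  set c : N := ((∑ i, ρ i * h i : ZMod p).cast : N) with hc
  have hcp : c ^ p = c := cast_pow_char _
  have hcL : c ∈ fld k (xpt z) := hcast _
  -- `e` is transcendental
  have he : Transcendental (fld k (xpt z)) (ec ρ z) := by
    intro hal
    refine ht ?_
    have h1 : algebraMap (RatFunc k) N RatFunc.X =
        (ec ρ z ^ p - ec ρ z - Bc b ρ z) * (Xc ρ z)⁻¹ := by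
      rw [he0]
      field_simp
      ring
    rw [h1]
    have h2 : IsAlgebraic (fld k (xpt z)) (Bc b ρ z) :=
      isAlgebraic_algebraMap (⟨Bc b ρ z, hBL⟩ : fld k (xpt z))
    have h3 : IsAlgebraic (fld k (xpt z)) (Xc ρ z) :=
      isAlgebraic_algebraMap (⟨Xc ρ z, hXL⟩ : fld k (xpt z))
    exact (((hal.pow p).sub hal).sub h2).mul h3.inv
  have he' : Transcendental (fld k (xpt z)) (ec ρ z + c) :=
    transcendental_add he (⟨c, hcL⟩ : fld k (xpt z))
  -- the lift of `t`
  let T : RatFunc (fld k (xpt z)) := (RatFunc.X ^ p - RatFunc.X -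
    algebraMap (fld k (xpt z)) _ ⟨Bc b ρ z, hBL⟩) *
      (algebraMap (fld k (xpt z)) _ ⟨Xc ρ z, hXL⟩)⁻¹
  have hT : ∀ (e : N) (h' : Transcendental (fld k (xpt z)) e), emb e h' T =
      (e ^ p - e - Bc b ρ z) * (Xc ρ z)⁻¹ := by
    intro e h'
    simp only [T, map_mul, map_sub, map_pow, map_inv₀, emb_X, AlgHom.commutes]
    rfl
  have hT1 : emb (ec ρ z) he T = algebraMap (RatFunc k) N RatFunc.X := by
    rw [hT, he0]
    field_simp
    ring
  have hT2 : emb (ec ρ z + c) he' T = algebraMap (RatFunc k) N RatFunc.X := by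
    rw [hT, add_pow_char, hcp]
    have h1 : ec ρ z ^ p + c - (ec ρ z + c) - Bc b ρ z = ec ρ z ^ p - ec ρ z - Bc b ρ z := by ring
    rw [h1, he0]
    field_simp
    ring
  have hbk : ∀ (e : N) (h' : Transcendental (fld k (xpt z)) e) (a : k),
      emb e h' (algebraMap (fld k (xpt z)) _ (algebraMap k (fld k (xpt z)) a)) =
        algebraMap (RatFunc k) N (RatFunc.C a) := by
    intro e h' a
    rw [AlgHom.commutes, hbase]
    rfl
  obtain ⟨τ, hτ⟩ := exists_lift (emb (ec ρ z) he).toRingHom (algebraMap (RatFunc k) N)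
    (fun a => ⟨_, hbk _ he a⟩) ⟨T, hT1⟩
  have hτC : ∀ a : k, τ (RatFunc.C a) =
      algebraMap (fld k (xpt z)) _ (algebraMap k (fld k (xpt z)) a) := by
    intro a
    refine (emb (ec ρ z) he).toRingHom.injective ?_
    exact (RingHom.congr_fun hτ (RatFunc.C a)).trans (hbk _ he a).symm
  have hτX : τ RatFunc.X = T := by
    refine (emb (ec ρ z) he).toRingHom.injective ?_
    exact (RingHom.congr_fun hτ RatFunc.X).trans hT1.symm
  have hτ2 : (emb (ec ρ z + c) he').toRingHom.comp τ = algebraMap (RatFunc k) N := by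
    refine ratFunc_hom_ext (fun a => ?_) ?_
    · rw [RingHom.comp_apply, hτC]
      exact hbk _ he' a
    · rw [RingHom.comp_apply, hτX]
      exact hT2
  refine key_red_eq h ?_
  rw [htr]
  refine ker_eq _ _ τ hτ hτ2 (Sum.elim (fun i => algebraMap (fld k (xpt z)) _
    ⟨xc z i, xc_mem_fld i⟩) (fun _ => RatFunc.X)) _ _ ?_ ?_
  · rintro (i | u)
    · exact AlgHom.commutes (emb (ec ρ z) he) _
    · exact emb_X _ he
  · rintro (i | u)
    · exact AlgHom.commutes (emb (ec ρ z + c) he') _
    · exact emb_X _ he'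

/-- KL-9b. -/
theorem modA2 (k : Type) [Field k] (p : ℕ) [Fact p.Prime] [CharP k p] {n : ℕ} (b : Fin n → k)
    (r : ℕ) (hb : ∀ i, b i ≠ 0) : ModA2 k p b r := by
  intro N _ _ I z ρ hz hρ hcon hX hB h
  have hp := charP_N k p N
  have hcast : ∀ a : ZMod p, (a.cast : N) ∈ ratf (RatFunc k) z := by
    intro a
    rw [← ZMod.natCast_val]
    exact natCast_mem _ _
  have hq : ∀ i j, xc z i / xc z j ∈ ratf (RatFunc k) z := fun i j =>
    IntermediateField.subset_adjoin _ _ ⟨i, j, rfl⟩
  have he0 := ec_eq hb hz hρ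
  rw [hX, mul_zero, zero_add] at he0
  have htr := ec_tr hz hρ h
  set c : N := ((∑ i, ρ i * h i : ZMod p).cast : N) with hc
  have hcp : c ^ p = c := cast_pow_char _
  have hcL : c ∈ ratf (RatFunc k) z := hcast _
  obtain ⟨j, hj⟩ : ∃ j, xc z j ≠ 0 := by
    by_contra hcon
    push Not at hcon
    refine hB ?_
    unfold Bc
    refine Finset.sum_eq_zero fun i _ => ?_
    rw [hcon i, inv_zero, mul_zero]
  have hβL : Bc b ρ z * xc z j ∈ ratf (RatFunc k) z := by
    unfold Bc
    rw [Finset.sum_mul]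
    refine sum_mem fun i _ => ?_
    rw [mul_assoc]
    refine mul_mem (mul_mem (hcast _) (IntermediateField.algebraMap_mem _ _)) ?_
    rw [mul_comm, ← div_eq_mul_inv]
    exact hq j i
  have hqx : ∀ i, xc z i = xc z i / xc z j * xc z j := fun i => (div_mul_cancel₀ _ hj).symm
  -- `e` is transcendental
  have he : Transcendental (ratf (RatFunc k) z) (ec ρ z) := by
    intro hal
    have h1 : IsAlgebraic (ratf (RatFunc k) z) (Bc b ρ z) := by
      rw [← he0]
      exact (hal.pow p).sub hal
    have h2 : xc z j = (Bc b ρ z * xc z j) * (Bc b ρ z)⁻¹ := by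
      field_simp
    have h3 : IsAlgebraic (ratf (RatFunc k) z) (xc z j) := by
      rw [h2]
      exact (isAlgebraic_algebraMap (⟨_, hβL⟩ : ratf (RatFunc k) z)).mul h1.inv
    have h4 : ∀ i, IsAlgebraic (ratf (RatFunc k) z) (xc z i) := by
      intro i
      rw [hqx i]
      exact (isAlgebraic_algebraMap (⟨_, hq i j⟩ : ratf (RatFunc k) z)).mul h3
    have h5 : ∀ a : RatFunc k, IsAlgebraic (ratf (RatFunc k) z) (algebraMap (RatFunc k) N a) :=
      fun a => isAlgebraic_algebraMap (algebraMap (RatFunc k) (ratf (RatFunc k) z) a)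
    have h6 : Algebra.trdeg (RatFunc k) (fld (RatFunc k) z) ≤
        Algebra.trdeg (RatFunc k) (ratf (RatFunc k) z) :=
      trdeg_le_of_alg (N := N) fun a => alg_of_mem hb hz.mem h5 h4 a.1 a.2
    rw [hz.dim] at h6
    have h7 : ((r : ℕ) : Cardinal.{0}) + 1 ≤ r := (add_le_add_left h6 1).trans hcon
    exact absurd h7 (by exact_mod_cast Nat.not_succ_le_self r)
  have he' : Transcendental (ratf (RatFunc k) z) (ec ρ z + c) :=
    transcendental_add he (⟨c, hcL⟩ : ratf (RatFunc k) z)
  -- the generic system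
  let W : Fin n ⊕ Unit → RatFunc (ratf (RatFunc k) z) := Sum.elim
    (fun i => algebraMap (ratf (RatFunc k) z) _ ⟨_, hq i j⟩ *
      (algebraMap (ratf (RatFunc k) z) _ ⟨_, hβL⟩ * (RatFunc.X ^ p - RatFunc.X)⁻¹))
    (fun _ => RatFunc.X)
  have hW : ∀ (e : N) (h' : Transcendental (ratf (RatFunc k) z) e) (i : Fin n),
      e ^ p - e = Bc b ρ z → emb e h' (W (Sum.inl i)) = xc z i := by
    intro e h' i h1
    have h2 : emb e h' (W (Sum.inl i)) =
        xc z i / xc z j * ((Bc b ρ z * xc z j) * (e ^ p - e)⁻¹) := by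
      simp only [W, Sum.elim_inl, map_mul, map_sub, map_pow, map_inv₀, emb_X, AlgHom.commutes]
      rfl
    rw [h2, h1]
    field_simp
  have hbk : ∀ (e : N) (h' : Transcendental (ratf (RatFunc k) z) e),
      (emb e h').toRingHom.comp ((algebraMap (ratf (RatFunc k) z) _).comp
        (algebraMap (RatFunc k) (ratf (RatFunc k) z))) = algebraMap (RatFunc k) N := by
    intro e h'
    refine RingHom.ext fun a => ?_
    exact AlgHom.commutes (emb e h') (algebraMap (RatFunc k) (ratf (RatFunc k) z) a)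
  refine key_red_eq h ?_
  rw [htr]
  refine ker_eq _ _ _ (hbk _ he) (hbk _ he') W _ _ ?_ ?_
  · rintro (i | u)
    · exact hW _ he i he0
    · exact emb_X _ he
  · rintro (i | u)
    · refine hW _ he' i ?_
      rw [add_pow_char, hcp, ← he0]
      ring
    · exact emb_X _ he'

end Pool.Agent.Helper17.KL
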