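import Pool.Agent.Helper17.KL.Shift

set_option autoImplicit false
set_option linter.unusedSectionVars false

/-!
Project KL (MP_0b9e0b_ag), module KL-9: `ModA1` and `ModA2`.
-/

namespace Pool.Agent.Helper17.KL

open Pool.Agent.Helper16 Pool.Agent.Helper1.KL

section Curve

variable {k : Type} [Field k] {p : ℕ} [Fact p.Prime] [CharP k p] {n : ℕ} {b : Fin n → k}
  {N : Type} [Field N] [Algebra (RatFunc k) N]

theorem charP_N (k : Type) [Field k] (p : ℕ) [CharP k p] (N : Type) [Field N]
    [Algebra (RatFunc k) N] : CharP N p := by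
  have h0 : CharP (RatFunc k) p :=
    charP_of_injective_algebraMap (algebraMap k (RatFunc k)).injective p
  exact charP_of_injective_algebraMap (algebraMap (RatFunc k) N).injective p

theorem cast_pow_char [CharP N p] (a : ZMod p) : (a.cast : N) ^ p = a.cast := by
  have h := congrArg (ZMod.castHom (dvd_refl p) N) (ZMod.pow_card a)
  rwa [map_pow] at h

/-- The equation at an affine coordinate. -/
theorem curve_aff (hb : ∀ i, b i ≠ 0) {z : Fin n ⊕ Fin n → Option N} (hz : XV p b N z) {i : Fin n}
    (hi : z (Sum.inr i) ≠ none) : z (Sum.inl i) = some (xc z i) ∧ xc z i ≠ 0 ∧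
      yc z i ^ p - yc z i = algebraMap (RatFunc k) N RatFunc.X * xc z i +
        algebraMap (RatFunc k) N (RatFunc.C (b i)) * (xc z i)⁻¹ := by
  rcases hz i with h | ⟨a, c, h1, h2, h3⟩
  · exact absurd h.1 hi
  · have hx : xc z i = a := by unfold xc; rw [h1]; rfl
    have hy : yc z i = c := by unfold yc; rw [h2]; rfl
    rw [hx, hy]
    have hbi : algebraMap (RatFunc k) N (RatFunc.C (b i)) ≠ 0 := by
      rw [Ne, map_eq_zero, map_eq_zero]
      exact hb i
    have ha : a ≠ 0 := by
      rintro rfl
      rw [zero_mul, zero_pow two_ne_zero, mul_zero, zero_add] at h3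
      exact hbi h3.symm
    refine ⟨h1, ha, ?_⟩
    field_simp
    linear_combination h3

variable {r : ℕ} {I : Finset (Fin n)} {z : Fin n ⊕ Fin n → Option N} {ρ : Fin n → ZMod p}

theorem cast_zero' [CharP N p] : ((0 : ZMod p).cast : N) = 0 :=
  map_zero (ZMod.castHom (dvd_refl p) N)

/-- The Artin-Schreier equation of `e`. -/
theorem ec_eq (hb : ∀ i, b i ≠ 0) (hz : Good p b r I z) (hρ : ∀ i ∉ I, ρ i = 0) :
    ec ρ z ^ p - ec ρ z = algebraMap (RatFunc k) N RatFunc.X * Xc ρ z + Bc b ρ z := by
  have hp := charP_N k p N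
  unfold ec Xc Bc
  rw [sum_pow_char, Finset.mul_sum, ← Finset.sum_sub_distrib, ← Finset.sum_add_distrib]
  refine Finset.sum_congr rfl fun i _ => ?_
  by_cases hi : i ∈ I
  · have h := (curve_aff hb hz.mem (hz.aff i hi)).2.2
    rw [mul_pow, cast_pow_char, ← mul_sub, h]
    ring
  · rw [hρ i hi, cast_zero', zero_mul, zero_mul, zero_mul, zero_mul, mul_zero,
      zero_pow (Fact.out : p.Prime).ne_zero]
    ring

/-- The value of `e` at a translate. -/
theorem ec_tr (hz : Good p b r I z) (hρ : ∀ i ∉ I, ρ i = 0) (h : Fin n → ZMod p) :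
    ec ρ (tr h z) = ec ρ z + ((∑ i, ρ i * h i : ZMod p).cast : N) := by
  have hp := charP_N k p N
  have h1 : ((∑ i, ρ i * h i : ZMod p).cast : N) = ∑ i, (ρ i).cast * (h i).cast := by
    have h2 := map_sum (ZMod.castHom (dvd_refl p) N) (fun i => ρ i * h i) Finset.univ
    simp only [map_mul] at h2
    exact h2
  rw [h1]
  unfold ec
  rw [← Finset.sum_add_distrib]
  refine Finset.sum_congr rfl fun i _ => ?_
  by_cases hi : i ∈ I
  · have h2 := hz.aff i hi
    obtain ⟨c, hc⟩ := Option.ne_none_iff_exists'.1 h2
    have h3 : yc (tr h z) i = yc z i + (h i).cast := by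
      unfold yc tr
      simp only [hc, Option.map_some, Option.getD_some]
    rw [h3, mul_add]
  · rw [hρ i hi, cast_zero', zero_mul, zero_mul, zero_mul, zero_add]

/-- Equality of the keys of reduced points. -/
theorem key_red_eq {F : Type} [Field F] [Algebra F N] (h : Fin n → ZMod p)
    (h1 : RingHom.ker (MvPolynomial.aeval (R := F)
      (Sum.elim (fun i => xc z i) (fun _ : Unit => ec ρ z))) =
      RingHom.ker (MvPolynomial.aeval (R := F)
      (Sum.elim (fun i => xc z i) (fun _ : Unit => ec ρ (tr h z))))) :
    key F (red ρ z) = key F (red ρ (tr h z)) := by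
  unfold key
  have h2 : ∀ w : Fin n ⊕ Fin n → Option N, (fun j => (red ρ w j).getD 0) =
      Sum.elim (fun i => xc w i) (fun _ : Unit => ec ρ w) := by
    intro w
    funext j
    rcases j with i | u
    · rfl
    · rfl
  have h3 : (fun i => xc (tr h z) i) = fun i => xc z i := rfl
  rw [h2, h2, h3]
  refine Prod.ext ?_ h1
  ext j
  rcases j with i | u
  · exact Iff.rfl
  · exact ⟨fun _ => by simp [red], fun _ => by simp [red]⟩

/-- All elements of the field of a point are algebraic over a field which contains the base up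
to algebraic elements and the coordinates `x i` up to algebraic elements. -/
theorem alg_of_mem (hb : ∀ i, b i ≠ 0) (hz : XV p b N z) {L : Type} [Field L] [Algebra L N]
    (hF : ∀ a : RatFunc k, IsAlgebraic L (algebraMap (RatFunc k) N a))
    (hx : ∀ i, IsAlgebraic L (xc z i)) (a : N) (ha : a ∈ fld (RatFunc k) z) :
    IsAlgebraic L a := by
  unfold fld at ha
  induction ha using IntermediateField.adjoin_induction with
  | mem y hy =>
    obtain ⟨j, hj⟩ := hy
    rcases j with i | i
    · have h1 : xc z i = y := by unfold xc; rw [hj]; rfl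
      rw [← h1]
      exact hx i
    · have h1 : yc z i = y := by unfold yc; rw [hj]; rfl
      have h2 := (curve_aff hb hz (i := i) (by rw [hj]; exact Option.some_ne_none _)).2.2
      rw [← h1]
      have h3 : IsAlgebraic L (yc z i ^ p - yc z i) := by
        rw [h2]
        exact ((hF _).mul (hx i)).add ((hF _).mul (hx i).inv)
      have h4 : yc z i ^ p - yc z i =
          Polynomial.aeval (yc z i) (Polynomial.X ^ p - Polynomial.X : Polynomial L) := by
        simp
      rw [h4] at h3
      refine IsAlgebraic.of_aeval _ ?_ ?_ h3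
      · have h5 : (Polynomial.X ^ p - Polynomial.X : Polynomial L).natDegree = p :=
          FiniteField.X_pow_card_sub_X_natDegree_eq L (Fact.out : p.Prime).one_lt
        rw [h5]
        exact (Fact.out : p.Prime).ne_zero
      · have h5 : (Polynomial.X ^ p - Polynomial.X : Polynomial L).natDegree = p :=
          FiniteField.X_pow_card_sub_X_natDegree_eq L (Fact.out : p.Prime).one_lt
        rw [Polynomial.leadingCoeff, h5, Polynomial.coeff_sub, Polynomial.coeff_X_pow_self,
          Polynomial.coeff_X_of_ne_one (Fact.out : p.Prime).one_lt.ne', sub_zero]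
        exact one_mem _
  | algebraMap c => exact hF c
  | add y w hy hw ihy ihw => exact ihy.add ihw
  | mul y w hy hw ihy ihw => exact ihy.mul ihw
  | inv y hy ihy => exact ihy.inv

end Curve

end Pool.Agent.Helper17.KL
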